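import Mathlib

set_option autoImplicit false

namespace Pool.Agent.Results.MP_ecbd44_co.HankelConstant

open Finset

/-- The polynomials `H_d(n, x)`: `H_d(n, x) = x^n` for `n < d`, and
`H_d(n, x) = x H_d(n-1, x) + (n-1)(n-2)...(n-d+1) H_d(n-d, x)` for `n ≥ d`
(here `d ≥ 2`; the product `(n-1)(n-2)...(n-d+1)` is the descending factorial
`(n-1).descFactorial (d-1)`). -/
noncomputable def H (d : ℕ) (hd : 2 ≤ d) (n : ℕ) : Polynomial ℤ :=
  if h : n < d then Polynomial.X ^ n
  else
    Polynomial.X * H d hd (n - 1) +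
      Polynomial.C (((n - 1).descFactorial (d - 1) : ℕ) : ℤ) * H d hd (n - d)
termination_by n
decreasing_by all_goals omega

/-- The `n × n` Hankel matrix `[H_d(i+j, x)]`, `0 ≤ i, j ≤ n - 1`. -/
noncomputable def M (d : ℕ) (hd : 2 ≤ d) (n : ℕ) : Matrix (Fin n) (Fin n) (Polynomial ℤ) :=
  Matrix.of fun i j => H d hd (i.val + j.val)

/-! ### The integer core matrix -/

/-- The coefficients of `exp (((s+t)^d - s^d - t^d)/d)` in the divided power basis. -/
def c (m : ℕ) : ℕ → ℕ → ℤ
  | 0, l => if l = 0 then 1 else 0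
  | k + 1, l => ∑ r ∈ (range m).attach,
      (m.choose (r.1 + 1) : ℤ) * (k.descFactorial (m - (r.1 + 1)) : ℤ) *
        (l.descFactorial (r.1 + 1) : ℤ) * c m (k - (m - (r.1 + 1))) (l - (r.1 + 1))
termination_by k => k
decreasing_by omega

lemma c_zero (m l : ℕ) : c m 0 l = if l = 0 then 1 else 0 := by rw [c]

lemma c_succ (m k l : ℕ) : c m (k + 1) l = ∑ r ∈ range m,
      (m.choose (r + 1) : ℤ) * (k.descFactorial (m - (r + 1)) : ℤ) *
        (l.descFactorial (r + 1) : ℤ) * c m (k - (m - (r + 1))) (l - (r + 1)) := by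
  rw [c]
  exact Finset.sum_attach (range m) (fun r => (m.choose (r + 1) : ℤ) *
    (k.descFactorial (m - (r + 1)) : ℤ) *
        (l.descFactorial (r + 1) : ℤ) * c m (k - (m - (r + 1))) (l - (r + 1)))

lemma factorial_dvd_c (m k : ℕ) : ∀ l, ((l.factorial : ℕ) : ℤ) ∣ c m k l := by
  induction k using Nat.strong_induction_on with
  | _ k ih =>
    intro l
    cases k with
    | zero =>
      rw [c_zero]
      split_ifs with h
      · subst h; simp
      · exact dvd_zero _
    | succ k =>
      rw [c_succ]
      apply Finset.dvd_sum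
      intro r hr
      rcases Nat.lt_or_ge l (r + 1) with h | h
      · rw [Nat.descFactorial_of_lt h]; simp
      · have h1 := ih (k - (m - (r + 1))) (by omega) (l - (r + 1))
        have h2 := Nat.factorial_mul_descFactorial h
        obtain ⟨q, hq⟩ := h1
        rw [hq, ← h2]
        push_cast
        exact ⟨(m.choose (r + 1) : ℤ) * (k.descFactorial (m - (r + 1)) : ℤ) * q, by ring⟩

/-! ### The power series identity -/

open PowerSeries in
lemma ode_unique (Q F : PowerSeries (PowerSeries ℚ))
    (hF : d⁄dX (PowerSeries ℚ) F = Q * F) (h0 : coeff 0 F = 0) : F = 0 := by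
  have h : ∀ n, coeff n F = 0 := by
    intro n
    induction n using Nat.strong_induction_on with
    | _ n ih =>
      cases n with
      | zero => exact h0
      | succ n =>
        have h1 := congrArg (coeff n) hF
        rw [coeff_derivative, coeff_mul] at h1
        have h2 : ∑ p ∈ antidiagonal n, coeff p.1 Q * coeff p.2 F = 0 := by
          apply Finset.sum_eq_zero
          intro p hp
          have := Finset.HasAntidiagonal.mem_antidiagonal.1 hp
          rw [ih p.2 (by omega), mul_zero]
        rw [h2] at h1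
        have h3 : ((n : PowerSeries ℚ) + 1) ≠ 0 := by
          have h4 : ((n : PowerSeries ℚ) + 1) = C ((n : ℚ) + 1) := by simp
          rw [h4, Ne, ← map_zero (C (R := ℚ)), C_injective.eq_iff]
          positivity
        exact (mul_eq_zero.1 h1).resolve_right h3
  ext n : 1
  rw [h n, map_zero]

open PowerSeries in
lemma leib {S : Type*} [CommRing S] (f g : PowerSeries S) :
    d⁄dX S (f * g) = f * d⁄dX S g + g * d⁄dX S f := by
  rw [Derivation.leibniz]; simp only [smul_eq_mul]

open PowerSeries in
lemma leib_C {S : Type*} [CommRing S] (a : S) (g : PowerSeries S) :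
    d⁄dX S (C a * g) = C a * d⁄dX S g := by
  rw [leib, derivative_C]; ring

open PowerSeries in
lemma der_sub {S : Type*} [CommRing S] (f g : PowerSeries S) :
    d⁄dX S (f - g) = d⁄dX S f - d⁄dX S g := map_sub _ _ _

section Series

variable (m : ℕ) (x : ℚ) (h : ℕ → ℚ)

/-- `A(t)` -/
noncomputable def A : PowerSeries ℚ := PowerSeries.mk fun n => h n / n.factorial
/-- `A(s)` -/
noncomputable def As : PowerSeries (PowerSeries ℚ) :=
  PowerSeries.mk fun n => PowerSeries.C (h n / n.factorial)
/-- `A(s+t)` -/
noncomputable def G : PowerSeries (PowerSeries ℚ) :=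
  PowerSeries.mk fun i => PowerSeries.mk fun j => h (i + j) / (i.factorial * j.factorial)
/-- `exp (((s+t)^d - s^d - t^d)/d)` -/
noncomputable def E : PowerSeries (PowerSeries ℚ) :=
  PowerSeries.mk fun k => PowerSeries.mk fun l => (c m k l : ℚ) / (k.factorial * l.factorial)
/-- `(s+t)^m` -/
noncomputable def W : PowerSeries (PowerSeries ℚ) :=
  (PowerSeries.X + PowerSeries.C (PowerSeries.X : PowerSeries ℚ)) ^ m

open PowerSeries in
lemma coeff_coeff_term (F : PowerSeries (PowerSeries ℚ)) (a b i j : ℕ) :
    coeff j (coeff i ((X : PowerSeries (PowerSeries ℚ)) ^ a *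
      C ((X : PowerSeries ℚ) ^ b) * F)) =
      if a ≤ i ∧ b ≤ j then coeff (j - b) (coeff (i - a) F) else 0 := by
  rw [mul_assoc, coeff_X_pow_mul']
  by_cases h1 : a ≤ i
  · rw [if_pos h1, coeff_C_mul, coeff_X_pow_mul']
    by_cases h2 : b ≤ j
    · rw [if_pos h2, if_pos ⟨h1, h2⟩]
    · rw [if_neg h2, if_neg (fun h => h2 h.2)]
  · rw [if_neg h1, if_neg (fun h => h1 h.1), map_zero]

open PowerSeries in
lemma coeff_W_mul (F : PowerSeries (PowerSeries ℚ)) (i j : ℕ) :
    coeff j (coeff i (W m * F)) = ∑ r ∈ range (m + 1), (m.choose r : ℚ) *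
      (if m - r ≤ i ∧ r ≤ j then coeff (j - r) (coeff (i - (m - r)) F) else 0) := by
  unfold W
  rw [add_comm, add_pow, Finset.sum_mul, map_sum, map_sum]
  refine Finset.sum_congr rfl fun r hr => ?_
  have e : (C (X : PowerSeries ℚ)) ^ r * (X : PowerSeries (PowerSeries ℚ)) ^ (m - r) *
      ((m.choose r : ℕ) : PowerSeries (PowerSeries ℚ)) * F =
      C (C (m.choose r : ℚ)) * (X ^ (m - r) * C ((X : PowerSeries ℚ) ^ r) * F) := by
    simp only [map_natCast, map_pow]
    ring
  rw [e, coeff_C_mul, coeff_C_mul, coeff_coeff_term]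

lemma desc_ratio (n r : ℕ) (hr : r ≤ n) :
    (n.descFactorial r : ℚ) / n.factorial = 1 / (n - r).factorial := by
  have h1 := Nat.factorial_mul_descFactorial hr
  have h2 : ((n - r).factorial : ℚ) ≠ 0 := by exact_mod_cast (n - r).factorial_ne_zero
  have h3 : (n.factorial : ℚ) ≠ 0 := by exact_mod_cast n.factorial_ne_zero
  rw [div_eq_div_iff h3 h2, one_mul, ← h1]
  push_cast; ring

lemma vandermonde (i j : ℕ) : ((i + j).descFactorial m : ℚ) =
    ∑ r ∈ range (m + 1), (m.choose r : ℚ) * (i.descFactorial (m - r) : ℚ) *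
      (j.descFactorial r : ℚ) := by
  rw [Nat.descFactorial_eq_factorial_mul_choose, Nat.add_choose_eq]
  push_cast
  rw [Finset.mul_sum, Finset.Nat.sum_antidiagonal_eq_sum_range_succ_mk,
    ← Finset.sum_range_reflect]
  refine Finset.sum_congr rfl fun r hr => ?_
  have hr' := Finset.mem_range.1 hr
  have e1 : m.succ - 1 - r = m - r := by omega
  have e2 : m - (m - r) = r := by omega
  simp only [e1, e2]
  rw [Nat.descFactorial_eq_factorial_mul_choose i, Nat.descFactorial_eq_factorial_mul_choose j]
  have h1 := Nat.choose_mul_factorial_mul_factorial (show r ≤ m by omega)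
  rw [← h1]
  push_cast
  ring

variable (h0 : h 0 = 1)
variable (hrec : ∀ n, h (n + 1) = x * h n + (n.descFactorial m : ℚ) * h (n - m))

include hrec in
open PowerSeries in
lemma ode_As : d⁄dX (PowerSeries ℚ) (As h) =
    (C (C x) + (X : PowerSeries (PowerSeries ℚ)) ^ m) * As h := by
  ext n j
  rw [coeff_derivative, add_mul, map_add, coeff_C_mul, coeff_X_pow_mul', map_add]
  have e1 : coeff j (coeff (n + 1) (As h) * ((n : PowerSeries ℚ) + 1)) =
      (if j = 0 then h (n + 1) / n.factorial else 0) := by
    have : ((n : PowerSeries ℚ) + 1) = C ((n : ℚ) + 1) := by simp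
    rw [this, mul_comm, coeff_C_mul]
    unfold As
    rw [coeff_mk, coeff_C, Nat.factorial_succ]
    split_ifs
    · push_cast
      have : ((n : ℚ) + 1) ≠ 0 := by positivity
      field_simp
    · simp
  rw [e1, coeff_C_mul]
  unfold As
  simp only [coeff_mk]
  by_cases hj : j = 0
  · subst hj
    rw [if_pos rfl, hrec, coeff_C, if_pos rfl]
    split_ifs with h1
    · rw [coeff_C, if_pos rfl, add_div, desc_ratio' h1]
      ring
    · rw [Nat.descFactorial_of_lt (by omega)]
      simp [mul_div_assoc]
  · rw [if_neg hj, coeff_C, if_neg hj]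
    split_ifs with h1
    · rw [coeff_C, if_neg hj]; ring
    · simp
where
  desc_ratio' {n : ℕ} (h1 : m ≤ n) : (n.descFactorial m : ℚ) * h (n - m) / n.factorial =
      h (n - m) / (n - m).factorial := by
    rw [mul_div_right_comm, desc_ratio n m h1]; ring

include hrec in
open PowerSeries in
lemma ode_G : d⁄dX (PowerSeries ℚ) (G h) =
    (C (C x) + W m) * G h := by
  ext i j
  rw [coeff_derivative, add_mul, map_add, coeff_C_mul, map_add, coeff_C_mul, coeff_W_mul]
  have e1 : coeff j (coeff (i + 1) (G h) * ((i : PowerSeries ℚ) + 1)) =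
      h (i + j + 1) / (i.factorial * j.factorial) := by
    have : ((i : PowerSeries ℚ) + 1) = C ((i : ℚ) + 1) := by simp
    rw [this, mul_comm, coeff_C_mul]
    unfold G
    rw [coeff_mk, coeff_mk, Nat.factorial_succ, show i + 1 + j = i + j + 1 by ring]
    push_cast
    have : ((i : ℚ) + 1) ≠ 0 := by positivity
    have h2 : (j.factorial : ℚ) ≠ 0 := by exact_mod_cast j.factorial_ne_zero
    have h3 : (i.factorial : ℚ) ≠ 0 := by exact_mod_cast i.factorial_ne_zero
    field_simp
  rw [e1, hrec]
  unfold G
  simp only [coeff_mk]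
  rw [add_div, mul_div_assoc]
  congr 1
  rw [vandermonde, Finset.sum_mul, Finset.sum_div]
  refine Finset.sum_congr rfl fun r hr => ?_
  have hr' := Finset.mem_range.1 hr
  split_ifs with h1
  · have e2 : i - (m - r) + (j - r) = i + j - m := by omega
    rw [e2]
    have h2 := desc_ratio i (m - r) h1.1
    have h3 := desc_ratio j r h1.2
    calc (m.choose r : ℚ) * (i.descFactorial (m - r)) * (j.descFactorial r) * h (i + j - m) /
          (i.factorial * j.factorial) = (m.choose r : ℚ) * ((i.descFactorial (m - r)) / i.factorial) *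
            ((j.descFactorial r) / j.factorial) * h (i + j - m) := by
          rw [div_eq_mul_inv, div_eq_mul_inv, div_eq_mul_inv, mul_inv]; ring
      _ = _ := by
          rw [h2, h3, div_eq_mul_inv, div_eq_mul_inv, div_eq_mul_inv, mul_inv]; ring
  · rw [not_and_or, not_le, not_le] at h1
    rcases h1 with h1 | h1
    · rw [Nat.descFactorial_of_lt h1]; simp
    · rw [Nat.descFactorial_of_lt h1]; simp

open PowerSeries in
lemma ode_E : d⁄dX (PowerSeries ℚ) (E m) =
    (W m - (X : PowerSeries (PowerSeries ℚ)) ^ m) * E m := by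
  ext i j
  rw [coeff_derivative, sub_mul, map_sub, map_sub, coeff_W_mul, Finset.sum_range_succ']
  have e1 : coeff j (coeff (i + 1) (E m) * ((i : PowerSeries ℚ) + 1)) =
      (c m (i + 1) j : ℚ) / (i.factorial * j.factorial) := by
    have : ((i : PowerSeries ℚ) + 1) = C ((i : ℚ) + 1) := by simp
    rw [this, mul_comm, coeff_C_mul]
    unfold E
    rw [coeff_mk, coeff_mk, Nat.factorial_succ]
    push_cast
    have : ((i : ℚ) + 1) ≠ 0 := by positivity
    have h2 : (j.factorial : ℚ) ≠ 0 := by exact_mod_cast j.factorial_ne_zero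
    have h3 : (i.factorial : ℚ) ≠ 0 := by exact_mod_cast i.factorial_ne_zero
    field_simp
  have e2 : coeff j (coeff i ((X : PowerSeries (PowerSeries ℚ)) ^ m * E m)) =
      (m.choose 0 : ℚ) * (if m - 0 ≤ i ∧ 0 ≤ j then
        coeff (j - 0) (coeff (i - (m - 0)) (E m)) else 0) := by
    rw [coeff_X_pow_mul']
    simp only [Nat.choose_zero_right, Nat.cast_one, one_mul, Nat.sub_zero, Nat.zero_le, and_true]
    split_ifs with h1
    · rfl
    · simp
  rw [e1, e2, add_sub_cancel_right, c_succ]
  push_cast
  rw [Finset.sum_div]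
  refine Finset.sum_congr rfl fun r hr => ?_
  have hr' := Finset.mem_range.1 hr
  split_ifs with h1
  · unfold E
    simp only [coeff_mk]
    have h2 := desc_ratio i (m - (r + 1)) h1.1
    have h3 := desc_ratio j (r + 1) h1.2
    calc (m.choose (r + 1) : ℚ) * (i.descFactorial (m - (r + 1))) * (j.descFactorial (r + 1)) *
            (c m (i - (m - (r + 1))) (j - (r + 1))) /
          (i.factorial * j.factorial) =
          (m.choose (r + 1) : ℚ) * ((i.descFactorial (m - (r + 1))) / i.factorial) *
            ((j.descFactorial (r + 1)) / j.factorial) *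
            (c m (i - (m - (r + 1))) (j - (r + 1))) := by
          rw [div_eq_mul_inv, div_eq_mul_inv, div_eq_mul_inv, mul_inv]; ring
      _ = _ := by
          rw [h2, h3, div_eq_mul_inv, div_eq_mul_inv, div_eq_mul_inv, mul_inv]; ring
  · rw [not_and_or, not_le, not_le] at h1
    rcases h1 with h1 | h1
    · rw [Nat.descFactorial_of_lt h1]; simp
    · rw [Nat.descFactorial_of_lt h1]; simp

include h0 hrec in
open PowerSeries in
lemma G_eq : G h = As h * (C (A h) * E m) := by
  have h1 := ode_G m x h hrec
  have h2 := ode_As m x h hrec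
  have h3 := ode_E m
  have h4 : d⁄dX (PowerSeries ℚ) (G h - As h * (C (A h) * E m)) =
      (C (C x) + W m) * (G h - As h * (C (A h) * E m)) := by
    rw [der_sub, leib, leib_C, h1, h2, h3]
    ring
  have h5 : coeff 0 (G h - As h * (C (A h) * E m)) = 0 := by
    rw [map_sub, coeff_zero_mul_eq, coeff_C_mul]
    have e1 : coeff 0 (E m) = 1 := by
      ext j
      unfold E
      rw [coeff_mk, coeff_mk, c_zero, coeff_one]
      split_ifs with hj
      · subst hj; simp
      · simp
    have e2 : coeff 0 (As h) = 1 := by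
      unfold As
      rw [coeff_mk, h0]
      simp
    rw [e1, e2, one_mul, mul_one]
    ext j
    rw [map_sub]
    unfold G A
    rw [coeff_mk, coeff_mk, coeff_mk, zero_add]
    simp
  exact sub_eq_zero.1 (ode_unique _ _ h4 h5)
where
  coeff_zero_mul_eq (u v : PowerSeries (PowerSeries ℚ)) :
      PowerSeries.coeff 0 (u * v) = PowerSeries.coeff 0 u * PowerSeries.coeff 0 v := by
    rw [PowerSeries.coeff_mul]; simp

include h0 hrec in
open PowerSeries in
/-- The factorisation of the Hankel kernel. -/
lemma kernel (i j : ℕ) : h (i + j) = ∑ k ∈ range (i + 1), ∑ l ∈ range (j + 1),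
    ((i.choose k : ℚ) * h (i - k)) * (c m k l : ℚ) * ((j.choose l : ℚ) * h (j - l)) := by
  have h1 := congrArg (fun F => coeff j (coeff i F)) (G_eq m x h h0 hrec)
  have e1 : coeff j (coeff i (G h)) = h (i + j) / (i.factorial * j.factorial) := by
    unfold G; rw [coeff_mk, coeff_mk]
  rw [e1, mul_comm (As h), coeff_mul, map_sum, Finset.Nat.sum_antidiagonal_eq_sum_range_succ_mk] at h1
  have h2 : (j.factorial : ℚ) ≠ 0 := by exact_mod_cast j.factorial_ne_zero
  have h3 : (i.factorial : ℚ) ≠ 0 := by exact_mod_cast i.factorial_ne_zero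
  rw [div_eq_iff (mul_ne_zero h3 h2)] at h1
  rw [h1, Finset.sum_mul]
  refine Finset.sum_congr rfl fun k hk => ?_
  have hk' := Finset.mem_range.1 hk
  have e2 : coeff (i - k) (As h) = C (h (i - k) / (i - k).factorial) := by
    unfold As; rw [coeff_mk]
  rw [e2, coeff_C_mul, mul_comm _ (C _), coeff_C_mul, mul_comm (A h), coeff_mul,
    Finset.Nat.sum_antidiagonal_eq_sum_range_succ_mk, Finset.mul_sum, Finset.sum_mul]
  refine Finset.sum_congr rfl fun l hl => ?_
  have hl' := Finset.mem_range.1 hl
  have e3 : coeff l (coeff k (E m)) = (c m k l : ℚ) / (k.factorial * l.factorial) := by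
    unfold E; rw [coeff_mk, coeff_mk]
  have e4 : coeff (j - l) (A h) = h (j - l) / (j - l).factorial := by
    unfold A; rw [coeff_mk]
  rw [e3, e4]
  have h5 := Nat.choose_mul_factorial_mul_factorial (show k ≤ i by omega)
  have h6 := Nat.choose_mul_factorial_mul_factorial (show l ≤ j by omega)
  have h7 : (i.factorial : ℚ) = i.choose k * k.factorial * (i - k).factorial := by
    rw [← h5]; push_cast; ring
  have h8 : (j.factorial : ℚ) = j.choose l * l.factorial * (j - l).factorial := by
    rw [← h6]; push_cast; ring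
  have n1 : (k.factorial : ℚ) ≠ 0 := by exact_mod_cast k.factorial_ne_zero
  have n2 : (l.factorial : ℚ) ≠ 0 := by exact_mod_cast l.factorial_ne_zero
  have n3 : ((i - k).factorial : ℚ) ≠ 0 := by exact_mod_cast (i - k).factorial_ne_zero
  have n4 : ((j - l).factorial : ℚ) ≠ 0 := by exact_mod_cast (j - l).factorial_ne_zero
  rw [h7, h8]
  field_simp

end Series

/-! ### The determinant -/

/-- The integer core matrix. -/
def core (m n : ℕ) : Matrix (Fin n) (Fin n) ℤ := Matrix.of fun k l => c m k.val l.val

lemma det_core_dvd (m n : ℕ) :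
    ((∏ i ∈ range n, i.factorial : ℕ) : ℤ) ∣ (core m n).det := by
  choose q hq using fun k l => factorial_dvd_c m k l
  have h1 : core m n = (Matrix.of fun k l : Fin n => q k.val l.val) *
      Matrix.diagonal (fun l : Fin n => ((l.val.factorial : ℕ) : ℤ)) := by
    ext k l
    rw [Matrix.mul_diagonal]
    unfold core
    rw [Matrix.of_apply, Matrix.of_apply, hq]
    ring
  rw [h1, Matrix.det_mul, Matrix.det_diagonal]
  have h2 : ((∏ i ∈ range n, i.factorial : ℕ) : ℤ) =
      ∏ l : Fin n, ((l.val.factorial : ℕ) : ℤ) := by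
    push_cast
    rw [Fin.prod_univ_eq_prod_range (fun i => ((i.factorial : ℕ) : ℤ)) n]
  rw [h2]
  exact Dvd.intro_left _ rfl

lemma sum_range_eq_fin (n i : ℕ) (hi : i < n) (g : ℕ → ℚ) (hg : ∀ k, i < k → g k = 0) :
    ∑ k ∈ range (i + 1), g k = ∑ k : Fin n, g k.val := by
  rw [Fin.sum_univ_eq_sum_range (fun k => g k) n]
  apply Finset.sum_subset
  · intro k hk
    rw [Finset.mem_range] at hk ⊢
    omega
  · intro k _ hk
    rw [Finset.mem_range, not_lt] at hk
    exact hg k (by omega)

lemma det_eval (d : ℕ) (hd : 2 ≤ d) (n : ℕ) (x : ℚ) :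
    ((M d hd n).det).eval₂ (Int.castRingHom ℚ) x = ((core (d - 1) n).det : ℚ) := by
  set h : ℕ → ℚ := fun n => (H d hd n).eval₂ (Int.castRingHom ℚ) x with hh
  have h0 : h 0 = 1 := by
    simp only [hh]
    rw [H, dif_pos (by omega)]
    simp
  have hrec : ∀ n, h (n + 1) = x * h n + (n.descFactorial (d - 1) : ℚ) * h (n - (d - 1)) := by
    intro n
    simp only [hh]
    by_cases hn : n + 1 < d
    · rw [H, dif_pos hn, H, dif_pos (by omega), Nat.descFactorial_of_lt (by omega)]
      simp [pow_succ, mul_comm]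
    · rw [H, dif_neg hn]
      have e1 : n + 1 - 1 = n := by omega
      have e2 : n + 1 - d = n - (d - 1) := by omega
      rw [e1, e2, Polynomial.eval₂_add, Polynomial.eval₂_mul, Polynomial.eval₂_mul,
        Polynomial.eval₂_X, Polynomial.eval₂_C]
      simp
  have hker := kernel (d - 1) x h h0 hrec
  -- L * core * Lᵀ
  set L : Matrix (Fin n) (Fin n) ℚ := Matrix.of fun i k => (i.val.choose k.val : ℚ) * h (i.val - k.val)
    with hL
  have hfac : (M d hd n).map (Polynomial.eval₂RingHom (Int.castRingHom ℚ) x) =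
      L * (core (d - 1) n).map (Int.castRingHom ℚ) * L.transpose := by
    ext i j
    have e1 : (M d hd n).map (Polynomial.eval₂RingHom (Int.castRingHom ℚ) x) i j =
        h (i.val + j.val) := by
      simp [M, hh]
    rw [e1, hker i.val j.val]
    calc _ = ∑ k : Fin n, ∑ l : Fin n, ((i.val.choose k.val : ℚ) * h (i.val - k.val)) *
            (c (d - 1) k.val l.val : ℚ) * ((j.val.choose l.val : ℚ) * h (j.val - l.val)) := by
          rw [sum_range_eq_fin n i.val i.isLt]
          · refine Finset.sum_congr rfl fun k _ => ?_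
            rw [sum_range_eq_fin n j.val j.isLt]
            intro l hl
            rw [Nat.choose_eq_zero_of_lt hl]; simp
          · intro k hk
            apply Finset.sum_eq_zero
            intro l _
            rw [Nat.choose_eq_zero_of_lt hk]; simp
      _ = ∑ l : Fin n, ∑ k : Fin n, ((i.val.choose k.val : ℚ) * h (i.val - k.val)) *
            (c (d - 1) k.val l.val : ℚ) * ((j.val.choose l.val : ℚ) * h (j.val - l.val)) :=
          Finset.sum_comm
      _ = (L * (core (d - 1) n).map (Int.castRingHom ℚ) * L.transpose) i j := by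
          rw [Matrix.mul_apply]
          refine Finset.sum_congr rfl fun l _ => ?_
          rw [Matrix.mul_apply, Finset.sum_mul]
          rfl
  have hdetL : L.det = 1 := by
    rw [Matrix.det_of_lowerTriangular]
    · apply Finset.prod_eq_one
      intro i _
      simp [hL, h0]
    · intro i j hij
      simp only [hL, Matrix.of_apply]
      rw [Nat.choose_eq_zero_of_lt]
      · simp
      · exact hij
  have h2 := congrArg Matrix.det hfac
  rw [Matrix.det_mul, Matrix.det_mul, Matrix.det_transpose, hdetL, one_mul, mul_one] at h2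
  have h3 := RingHom.map_det (Polynomial.eval₂RingHom (Int.castRingHom ℚ) x) (M d hd n)
  have h4 := RingHom.map_det (Int.castRingHom ℚ) (core (d - 1) n)
  have h5 : (M d hd n).det.eval₂ (Int.castRingHom ℚ) x =
      (Polynomial.eval₂RingHom (Int.castRingHom ℚ) x) (M d hd n).det := rfl
  have h6 : ((core (d - 1) n).det : ℚ) = (Int.castRingHom ℚ) (core (d - 1) n).det := rfl
  rw [h5, h6, h3, h4]
  exact h2

/-- For every `d ≥ 2` and `n ≥ 1` the Hankel determinant `det [H_d(i+j, x)]` is a constant
integer, divisible by `0! 1! ... (n-1)!`. -/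
theorem result : ∀ (d : ℕ) (hd : 2 ≤ d) (n : ℕ), 1 ≤ n →
    ∃ D : ℤ, (M d hd n).det = Polynomial.C D ∧
      ((∏ i ∈ Finset.range n, i.factorial : ℕ) : ℤ) ∣ D := by
  intro d hd n _
  refine ⟨(core (d - 1) n).det, ?_, det_core_dvd (d - 1) n⟩
  have hinj : Function.Injective (Polynomial.map (Int.castRingHom ℚ)) :=
    Polynomial.map_injective _ (Int.castRingHom ℚ).injective_int
  apply hinj
  apply Polynomial.funext
  intro x
  rw [Polynomial.eval_map, det_eval, Polynomial.map_C, Polynomial.eval_C]
  rfl

end Pool.Agent.Results.MP_ecbd44_co.HankelConstant
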